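import Pool.Agent.Helper310.Strip.Main
import Pool.Agent.Helper310.Strip.Seq

set_option autoImplicit false

namespace Pool.Agent.Results.MP_e25616_lc.DetLowerBound

open Pool.Agent.Helper310.Strip

/-- The optimal competitive ratio of deterministic online (batch-style) algorithms on the line of
`m` machines, as an infimum in the extended reals. -/
noncomputable def detRatio (m : ℕ) : EReal :=
  ⨅ c : {c : ℝ // ∃ A : OnlineAlg m, A.Competitive c}, ((c : ℝ) : EReal)

/-- Sanity check: the model is not vacuous, `detRatio m ≤ m`. -/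
theorem detRatio_le (m : ℕ) : detRatio m ≤ ((m : ℝ) : EReal) :=
  iInf_le (fun c : {c : ℝ // ∃ A : OnlineAlg m, A.Competitive c} => ((c : ℝ) : EReal))
    ⟨(m : ℝ), exists_competitive m⟩

theorem le_detRatio {m : ℕ} (hm : 113 ≤ m) :
    ((33 / 16 - 7 / (m : ℝ) : ℝ) : EReal) ≤ detRatio m := by
  unfold detRatio
  apply le_iInf
  rintro ⟨c, A, hA⟩
  rw [EReal.coe_le_coe_iff]
  exact lower_bound hm A hA

/-- On every line of `m ≥ 113` machines the optimal deterministic competitive ratio is greater
than `2`; it is at least `33/16 - 7/m`, and its supremum over all `m` is at least `33/16`. -/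
theorem result :
    (∀ m : ℕ, 113 ≤ m → ((2 : ℝ) : EReal) < detRatio m ∧
      ((33 / 16 - 7 / (m : ℝ) : ℝ) : EReal) ≤ detRatio m) ∧
    ((33 / 16 : ℝ) : EReal) ≤ ⨆ m : ℕ, detRatio m := by
  refine ⟨fun m hm => ⟨?_, le_detRatio hm⟩, ?_⟩
  · refine lt_of_lt_of_le ?_ (le_detRatio hm)
    rw [EReal.coe_lt_coe_iff]
    have hmR : (113 : ℝ) ≤ m := by exact_mod_cast hm
    have : 7 / (m : ℝ) < 1 / 16 := by
      rw [div_lt_iff₀ (by linarith)]
      linarith
    linarith
  · apply EReal.ge_of_forall_gt_iff_ge.1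
    intro z hz
    rw [EReal.coe_lt_coe_iff] at hz
    obtain ⟨k, hk⟩ := exists_nat_gt (7 / (33 / 16 - z))
    have hpos : 0 < 33 / 16 - z := by linarith
    set m := max k 113 with hm
    have hmk : (k : ℝ) ≤ m := by exact_mod_cast le_max_left _ _
    have hm0 : (0 : ℝ) < m := by
      have : (113 : ℝ) ≤ m := by exact_mod_cast le_max_right k 113
      linarith
    refine le_trans ?_ ((le_detRatio (m := m) (le_max_right _ _)).trans
      (le_iSup detRatio m))
    rw [EReal.coe_le_coe_iff]
    have h1 : 7 / (33 / 16 - z) < m := lt_of_lt_of_le hk hmk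
    rw [div_lt_iff₀ hpos] at h1
    have h2 : 7 / (m : ℝ) < 33 / 16 - z := by
      rw [div_lt_iff₀ hm0]
      linarith
    linarith

end Pool.Agent.Results.MP_e25616_lc.DetLowerBound
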